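import Pool.Graph.R_pool_sql_team_seeded_1e53cb71.Helper77K9.BC.Disc
import Pool.Graph.R_pool_sql_team_seeded_1e53cb71.Helper77K9.BC.Lw
import Pool.Graph.R_pool_sql_team_seeded_1e53cb71.Helper77K9.BC.Nr
import Pool.Graph.R_pool_sql_team_seeded_1e53cb71.Helper77K9.BC.Nta
import Pool.Graph.R_pool_sql_team_seeded_1e53cb71.Helper77K9.BC.Ntc
import Pool.Graph.R_pool_sql_team_seeded_1e53cb71.Helper77K9.BC.Upper
import Pool.Graph.R_pool_sql_team_seeded_1e53cb71.Helper54K9.BC.Box
import Pool.Graph.R_pool_sql_team_seeded_1e53cb71.Helper54K9.BC.Shf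
import Pool.Graph.R_pool_sql_team_seeded_1e53cb71.Helper92K9.BC.Mes
import Pool.Graph.R_pool_sql_team_seeded_1e53cb71.Helper30K9.BC.Du
import Pool.Graph.R_pool_sql_team_seeded_1e53cb71.Helper46K9.BC.DlC

/-!
Critical bond percolation (the random-cluster model with `q = 1` at its self-dual point) on
`δ ℤ²` in a rectangle `D = (-A, B) × (0, H)`, with the counterclockwise boundary arc from
`a = t + i H` to `b = 0` wired and the other one dual-wired. Which sets of boundary points are hit
by the scaling limits of the interface? For every weak limit, as `δ → 0`, of the law of the trace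
of the interface, and every compact set `S` of boundary points near `b`, the probability that
`S` is hit is, up to universal constants, the capacity of `S` for the kernel
`(max (x, y) / |x - y|) ^ (1/3)`; so all the weak limits have the same polar sets.

Definitions (in `Pool.Agent.H934R2.Expl.Model`): `Rect` (the domain), `pt`, `Rect.verts`,
`Rect.edges` (the discrete domain), `Rect.wired`, `Rect.outer` (boundary condition), `Rect.clu`,
`Rect.dclu` (the two clusters), `Rect.path` (trace of the interface), `Rect.law` (its law,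
all configurations of the edges being equally likely).
-/

set_option autoImplicit false

namespace Pool.Agent.Results.MP_216314_pr.BoundaryPolarSets

open MeasureTheory TopologicalSpace Filter Topology H934E
open scoped ENNReal

/-- the kernel (the two-point function of chordal SLE₆ at boundary points) -/
noncomputable def ker (x y : ℝ) : ℝ≥0∞ :=
  (ENNReal.ofReal (max x y) / ENNReal.ofReal |x - y|) ^ ((1 : ℝ) / 3)

/-- the energy of a measure -/
noncomputable def energy (ν : Measure ℝ) : ℝ≥0∞ := ∫⁻ x, ∫⁻ y, ker x y ∂ν ∂ν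

/-- the capacity of a set -/
noncomputable def cap (S : Set ℝ) : ℝ≥0∞ :=
  ⨆ (ν : Measure ℝ) (_ : IsProbabilityMeasure ν) (_ : ν Sᶜ = 0), (energy ν)⁻¹

/-- The trace `K` hits the set `S` of points of the real line (the line of the lower side). -/
def Hits (S : Set ℝ) : Set (NonemptyCompacts ℂ) := {K | ∃ y ∈ S, (y : ℂ) ∈ K}

/-- the points of `S` on the trace `K` -/
def on (K : NonemptyCompacts ℂ) (S : Set ℝ) : Set ℝ := {y : ℝ | y ∈ S ∧ (y : ℂ) ∈ K}

/-- the smallest of the three distances -/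
noncomputable def ell (R : Rect) : ℝ := min R.A (min R.B R.H)

open Pool.Agent.Helper77K9.BC

theorem t_disc : S_DISC :=
  disc Pool.Agent.Helper54K9.BC.box Pool.Agent.Helper54K9.BC.shf lw

theorem t_nr : S_NR := nr (nt nta ntb ntc)

theorem t_lower : S_LOWER := lower t_disc Pool.Agent.Helper92K9.BC.push

theorem t_upper : S_UPPER := upper t_disc t_nr Pool.Agent.Helper92K9.BC.lim

theorem cap_pos_of {S : Set ℝ} {ν : Measure ℝ} (h1 : IsProbabilityMeasure ν) (h2 : ν Sᶜ = 0) :
    (energy ν)⁻¹ ≤ cap S := by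
  unfold cap
  exact le_iSup_of_le ν (le_iSup_of_le h1 (le_iSup_of_le h2 le_rfl))

theorem du_dim (R : Rect) {δ : ℕ → ℝ} (hδ : ∀ i, 0 < δ i) (hlim : Tendsto δ atTop (𝓝 0))
    {μ : ProbabilityMeasure (NonemptyCompacts ℂ)}
    (hμ : Tendsto (fun i => R.law (hδ i)) atTop (𝓝 μ)) {S : Set ℝ}
    (hS : S ⊆ Set.Ioc 0 (ell R / 16)) :
    ∀ᵐ K ∂(μ : Measure (NonemptyCompacts ℂ)), dimH (on K S) ≤ dimH S - 1 / 3 := by
  have hon : ∀ K : NonemptyCompacts ℂ, on K S = touch K ∩ S := by
    intro K; ext y; simp only [on, touch, Set.mem_inter_iff, Set.mem_ofPred_eq]; tauto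
  have h13 : ((1 / 3 : NNReal) : ℝ) = 1 / 3 := by push_cast; rfl
  -- for every rational `s`
  have key : ∀ s : NNReal, 1 / 3 ≤ s → dimH S < s →
      ∀ᵐ K ∂(μ : Measure (NonemptyCompacts ℂ)), dimH (on K S) ≤ (s : ℝ≥0∞) - 1 / 3 := by
    intro s h1 h2
    have h3 : μH[(s : ℝ)] S = 0 := hausdorffMeasure_of_dimH_lt h2
    have h1' : (1:ℝ) / 3 ≤ s := by
      have : ((1 / 3 : NNReal) : ℝ) ≤ s := NNReal.coe_le_coe.2 h1
      rwa [h13] at this
    have h4 := Pool.Agent.Helper30K9.BC.du R δ hδ hlim μ hμ S s h1' hS h3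
    filter_upwards [h4] with K hK
    rw [hon K]
    have h5 : ((s : ℝ) - 1 / 3) = ((s - 1 / 3 : NNReal) : ℝ) := by
      rw [NNReal.coe_sub h1, h13]
    rw [h5] at hK
    have h6 : dimH (touch K ∩ S) ≤ ((s - 1 / 3 : NNReal) : ℝ≥0∞) := by
      by_contra hc
      push Not at hc
      have := hausdorffMeasure_of_lt_dimH hc
      rw [this] at hK
      exact ENNReal.top_ne_zero hK
    refine h6.trans (le_of_eq ?_)
    rw [ENNReal.coe_sub]
    congr 1
    rw [ENNReal.coe_div (by norm_num)]
    norm_num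
  by_cases hd : dimH S < 1 / 3
  · have h3 : μH[((1 / 3 : NNReal) : ℝ)] S = 0 := by
      apply hausdorffMeasure_of_dimH_lt
      refine lt_of_lt_of_eq hd ?_
      rw [ENNReal.coe_div (by norm_num)]
      norm_num
    rw [h13] at h3
    have h4 := Pool.Agent.Helper30K9.BC.du R δ hδ hlim μ hμ S (1/3) le_rfl hS h3
    filter_upwards [h4] with K hK
    rw [hon K]
    rw [sub_self] at hK
    have h5 : touch K ∩ S = ∅ := by
      by_contra hc
      obtain ⟨y, hy⟩ := Set.nonempty_iff_ne_empty.mpr hc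
      have h6 : μH[(0:ℝ)] ({y} : Set ℝ) ≤ μH[(0:ℝ)] (touch K ∩ S) :=
        measure_mono (Set.singleton_subset_iff.2 hy)
      rw [hK, MeasureTheory.Measure.hausdorffMeasure_zero_singleton] at h6
      exact absurd h6 (by norm_num)
    rw [h5, dimH_empty]
    exact bot_le
  · push Not at hd
    have hfin : dimH S ≠ ⊤ := by
      have : dimH S ≤ 1 := by
        refine (dimH_mono (Set.subset_univ S)).trans ?_
        rw [Real.dimH_univ]
      exact ne_top_of_le_ne_top ENNReal.one_ne_top this
    have hall : ∀ n : ℕ, ∀ᵐ K ∂(μ : Measure (NonemptyCompacts ℂ)),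
        dimH (on K S) ≤ (((dimH S).toNNReal + 1 / ((n : NNReal) + 1) : NNReal) : ℝ≥0∞) - 1 / 3 := by
      intro n
      apply key
      · refine le_trans ?_ le_self_add
        rw [← ENNReal.coe_le_coe, ENNReal.coe_toNNReal hfin]
        refine le_trans (le_of_eq ?_) hd
        rw [ENNReal.coe_div (by norm_num)]
        norm_num
      · rw [ENNReal.coe_add, ENNReal.coe_toNNReal hfin]
        refine ENNReal.lt_add_right hfin ?_
        simp
    rw [← ae_all_iff] at hall
    filter_upwards [hall] with K hK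
    have hlim2 : Tendsto (fun n : ℕ => (((dimH S).toNNReal + 1 / ((n : NNReal) + 1) : NNReal) :
        ℝ≥0∞) - 1 / 3) atTop (𝓝 (dimH S - 1 / 3)) := by
      have h1 : Tendsto (fun n : ℕ => ((dimH S).toNNReal + 1 / ((n : NNReal) + 1) : NNReal)) atTop
          (𝓝 ((dimH S).toNNReal + 0)) :=
        tendsto_const_nhds.add tendsto_one_div_add_atTop_nhds_zero_nat
      rw [add_zero] at h1
      have h2 := (ENNReal.tendsto_coe.2 h1)
      rw [ENNReal.coe_toNNReal hfin] at h2
      exact ENNReal.Tendsto.sub h2 tendsto_const_nhds (Or.inr (by norm_num))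
    exact ge_of_tendsto' hlim2 hK

/-- **The boundary points hit by the limits of the critical interface (`q = 1`).** Weak limits `μ`
of the law of the trace exist along a subsequence of every sequence of meshes, and there are
universal constants `c, C > 0` such that for every rectangle and every weak limit `μ`:
(1) a compact set `S ⊆ [a, ell R / 100]`, `a > 0`, of points of the lower side is hit with
probability between `c cap S` and `C cap S`; in particular it is not hit, almost surely, if and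
only if its capacity is zero, which does not depend on the rectangle nor on the weak limit;
(2) for every set `S ⊆ (0, ell R / 16]`, almost surely the points of `S` on the trace form a
set of dimension at most `dimH S - 1/3`; it is empty if `dimH S < 1/3`, and more generally it has
zero measure in dimension `s - 1/3` if `S` has zero measure in dimension `s`;
(3) if `S ⊆ [a, ell R / 100]` is compact and carries a probability measure `ν` of finite
Riesz energy in dimension `1/3 + s`, `s > 0`, then the points of `S` on the trace form a set of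
dimension at least `s` with probability at least `c / energy ν`. -/
theorem result :
    (∀ (R : Rect) (δ : ℕ → ℝ) (hδ : ∀ i, 0 < δ i), Tendsto δ atTop (𝓝 0) →
      ∃ φ : ℕ → ℕ, StrictMono φ ∧ ∃ μ : ProbabilityMeasure (NonemptyCompacts ℂ),
        Tendsto (fun i => R.law (hδ (φ i))) atTop (𝓝 μ)) ∧
    ∃ c C : ℝ, 0 < c ∧ 0 < C ∧
      ∀ (R : Rect) (δ : ℕ → ℝ) (hδ : ∀ i, 0 < δ i), Tendsto δ atTop (𝓝 0) →
      ∀ μ : ProbabilityMeasure (NonemptyCompacts ℂ),
        Tendsto (fun i => R.law (hδ i)) atTop (𝓝 μ) →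
        (∀ (S : Set ℝ) (a : ℝ), IsCompact S → 0 < a → S ⊆ Set.Icc a (ell R / 100) →
          ENNReal.ofReal c * cap S ≤ (μ : Measure (NonemptyCompacts ℂ)) (Hits S) ∧
          (μ : Measure (NonemptyCompacts ℂ)) (Hits S) ≤ ENNReal.ofReal C * cap S ∧
          ((μ : Measure (NonemptyCompacts ℂ)) (Hits S) = 0 ↔ cap S = 0)) ∧
        (∀ S : Set ℝ, S ⊆ Set.Ioc 0 (ell R / 16) →
          (∀ᵐ K ∂(μ : Measure (NonemptyCompacts ℂ)), dimH (on K S) ≤ dimH S - 1 / 3) ∧
          (dimH S < 1 / 3 → ∀ᵐ K ∂(μ : Measure (NonemptyCompacts ℂ)), on K S = ∅) ∧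
          ∀ s : ℝ, 1 / 3 ≤ s → μH[s] S = 0 →
            ∀ᵐ K ∂(μ : Measure (NonemptyCompacts ℂ)), μH[s - 1 / 3] (on K S) = 0) ∧
        (∀ (S : Set ℝ) (a s : ℝ), IsCompact S → 0 < a → S ⊆ Set.Icc a (ell R / 100) → 0 < s →
          ∀ ν : Measure ℝ, IsProbabilityMeasure ν → ν Sᶜ = 0 →
            ∫⁻ x, ∫⁻ y, (edist x y) ^ (-(1 / 3 + s) : ℝ) ∂ν ∂ν ≠ ∞ →
            ∃ G : Set (NonemptyCompacts ℂ), MeasurableSet G ∧
              ENNReal.ofReal c * (energy ν)⁻¹ ≤ (μ : Measure (NonemptyCompacts ℂ)) G ∧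
              ∀ K ∈ G, ENNReal.ofReal s ≤ dimH (on K S)) := by
  have hon : ∀ (K : NonemptyCompacts ℂ) (S : Set ℝ), on K S = touch K ∩ S := by
    intro K S; ext y; simp only [on, touch, Set.mem_inter_iff, Set.mem_ofPred_eq]; tauto
  refine ⟨fun R δ hδ hlim => R.exists_limit hδ hlim, ?_⟩
  obtain ⟨c1, hc1, h1⟩ := t_lower
  obtain ⟨C, hC, h2⟩ := t_upper
  obtain ⟨c2, hc2, h3⟩ := Pool.Agent.Helper46K9.BC.dl
  refine ⟨min c1 c2, C, lt_min hc1 hc2, hC, ?_⟩
  intro R δ hδ hlim μ hμ
  have le1 : ENNReal.ofReal (min c1 c2) ≤ ENNReal.ofReal c1 :=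
    ENNReal.ofReal_le_ofReal (min_le_left _ _)
  have le2 : ENNReal.ofReal (min c1 c2) ≤ ENNReal.ofReal c2 :=
    ENNReal.ofReal_le_ofReal (min_le_right _ _)
  refine ⟨?_, ?_, ?_⟩
  · intro S a hS ha hSa
    have hlo : ENNReal.ofReal (min c1 c2) * cap S ≤
        (μ : Measure (NonemptyCompacts ℂ)) (Hits S) := by
      unfold cap
      simp only [ENNReal.mul_iSup]
      refine iSup_le fun ν => iSup_le fun hν => iSup_le fun hν0 => ?_
      by_cases he : energy ν = ∞
      · rw [he, ENNReal.inv_top, mul_zero]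
        exact bot_le
      · exact (mul_le_mul_left le1 _).trans (h1 R δ hδ hlim μ hμ S a hS ha hSa ν hν hν0 he)
    have hup : (μ : Measure (NonemptyCompacts ℂ)) (Hits S) ≤ ENNReal.ofReal C * cap S := by
      rcases eq_or_ne ((μ : Measure (NonemptyCompacts ℂ)) (Hits S)) 0 with h0 | h0
      · rw [h0]; exact bot_le
      · obtain ⟨ν, hν, hν0, h4⟩ := h2 R δ hδ hlim μ hμ S a hS ha hSa (pos_iff_ne_zero.2 h0)
        exact h4.trans (mul_le_mul_right (cap_pos_of hν hν0) _)
    refine ⟨hlo, hup, fun h0 => ?_, fun h0 => ?_⟩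
    · rw [h0] at hlo
      have h5 := le_bot_iff.1 hlo
      rcases mul_eq_zero.1 h5 with h6 | h6
      · exact absurd (ENNReal.ofReal_eq_zero.1 h6) (not_le.2 (lt_min hc1 hc2))
      · exact h6
    · rw [h0, mul_zero] at hup
      exact le_bot_iff.1 hup
  · intro S hS
    refine ⟨du_dim R hδ hlim hμ hS, fun hd => ?_, fun s hs h0 => ?_⟩
    · have h6 : μH[((1 / 3 : NNReal) : ℝ)] S = 0 := by
        apply hausdorffMeasure_of_dimH_lt
        refine lt_of_lt_of_eq hd ?_
        rw [ENNReal.coe_div (by norm_num)]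
        norm_num
      have h13 : ((1 / 3 : NNReal) : ℝ) = 1 / 3 := by push_cast; rfl
      rw [h13] at h6
      have h4 := Pool.Agent.Helper30K9.BC.du R δ hδ hlim μ hμ S (1/3) le_rfl hS h6
      filter_upwards [h4] with K hK
      rw [hon K]
      rw [sub_self] at hK
      by_contra hc
      obtain ⟨y, hy⟩ := Set.nonempty_iff_ne_empty.mpr hc
      have h6 : μH[(0:ℝ)] ({y} : Set ℝ) ≤ μH[(0:ℝ)] (touch K ∩ S) :=
        measure_mono (Set.singleton_subset_iff.2 hy)
      rw [hK, MeasureTheory.Measure.hausdorffMeasure_zero_singleton] at h6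
      exact absurd h6 (by norm_num)
    · filter_upwards [Pool.Agent.Helper30K9.BC.du R δ hδ hlim μ hμ S s hs hS h0] with K hK
      rw [hon K]; exact hK
  · intro S a s hS ha hSa hs ν hν hν0 hen
    obtain ⟨G, hG, h4, h5⟩ := h3 R δ hδ hlim μ hμ S a s hS ha hSa hs ν hν hν0 hen
    exact ⟨G, hG, (mul_le_mul_left le2 _).trans h4, fun K hK => by rw [hon K]; exact h5 K hK⟩

end Pool.Agent.Results.MP_216314_pr.BoundaryPolarSets
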