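import Pool.Agent.Results.MP_46f0ca_pr.NoGaussianPieces
import Pool.Agent.H994.ON.Rect
import Pool.Agent.H994.ON.Rep

/-!
# Interfaces of the random-cluster model: no limit is a deformed (fractional) Brownian path

Let the interface of the random-cluster (Fortuin-Kasteleyn) model on the square lattice, for any
cluster weight `q > 0` and any edge weight `x > 0`, along any sequence of finite domains with any
boundary conditions for which the interface exists, and at any meshes, converge in law to a random
curve, in the uniform distance up to reparametrisation.  Then the limit is carried by the uniform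
limits of simple curves, it is singular to the law of every random curve which contains a
deformed piece (by a random homeomorphism of the plane and a random monotone change of time) of planar
fractional Brownian motion, for every Hurst index, or of planar Brownian motion, and it has nowhere a
tangent which is a linear image of the path of a fractional Brownian motion.  Moreover this is
uniform: for every Hurst index and `η > 0` there is `ε > 0` such that the interface of the model in
any domain, at any mesh, for any `q` and `x`, in any parametrisation, even deformed by a random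
homeomorphism of the plane, has uniform distance `> ε` from the fractional Brownian motion with
probability `≥ 1 - η`, in every coupling.
-/

set_option autoImplicit false

open Filter Topology MeasureTheory ProbabilityTheory
open scoped NNReal

namespace Pool.Agent.Results.MP_216314_pr.NoBrownianLimits

open Pool.Agent.Results.MP_46f0ca_pr.NoGaussianPieces (LimitsOfSimpleCurves IsPlanarBrownian
  SingularToPieces IsFractionalBrownian HasTangent)

/-- The four directions. -/
def dir : Fin 4 → ℤ × ℤ := ![(1, 0), (0, 1), (-1, 0), (0, -1)]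

/-- The corners of the vertices: `(v, k)` is the corner of the vertex `v` between the directions
`dir k` and `dir (k + 1)`, `k` modulo `4`. -/
abbrev Corner : Type := (ℤ × ℤ) × Fin 4

/-- The position of the corner `(v, k)` in the plane: the midpoint of the vertex `v` and the dual
vertex `v + (1 + i) / 2 * i ^ k`. -/
noncomputable def pos (c : Corner) : ℂ :=
  (c.1.1 : ℂ) + (c.1.2 : ℂ) * Complex.I + (1 + Complex.I) / 4 * Complex.I ^ (c.2 : ℕ)

open Classical in
/-- The interfaces of the configuration with the set `S` of open edges, with the open clusters on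
their left: after the corner `(v, k)` comes, if the edge from `v` in the direction `dir (k + 1)` is
open, the corner of its other end with the same dual vertex; if it is closed, the next corner of
`v`. -/
noncomputable def next (S : Set (Sym2 (ℤ × ℤ))) (c : Corner) : Corner :=
  if s(c.1, c.1 + dir (c.2 + 1)) ∈ S then (c.1 + dir (c.2 + 1), c.2 - 1) else (c.1, c.2 + 1)

/-- The polygonal curve through the points `p 0, …, p m`, parametrised by `[0, 1]` with constant
time for each step: the value at `t` is `p 0 + ∑_{k < m} clamp (m t - k) (p (k+1) - p k)`, where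
`clamp u = max 0 (min 1 u)`. -/
noncomputable def polygon (m : ℕ) (p : ℕ → ℂ) : C(unitInterval, ℂ) where
  toFun t := p 0 + ∑ k ∈ Finset.range m,
    ((max 0 (min 1 (m * (t : ℝ) - (k : ℝ))) : ℝ) : ℂ) * (p (k + 1) - p k)
  continuous_toFun := by fun_prop

/-- The interface from the corner `a` to the corner `b`, at mesh `δ`, as a curve. -/
noncomputable def interface (δ : ℝ) (S : Set (Sym2 (ℤ × ℤ))) (a b : Corner) :
    C(unitInterval, ℂ) :=
  polygon (sInf {m | (next S)^[m] a = b}) fun i => δ * pos ((next S)^[i] a)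

/-- The domain with the edges `E`, the boundary condition `ξ` (the set of the open edges outside `E`)
and the marked corners `a ≠ b`: for every configuration the interface from `a` leads to `b`. -/
def IsDomain (E : Finset (Sym2 (ℤ × ℤ))) (ξ : Set (Sym2 (ℤ × ℤ))) (a b : Corner) : Prop :=
  (∀ e ∈ E, ∃ v k, e = s(v, v + dir k)) ∧ a ≠ b ∧
    ∀ ω : Finset (Sym2 (ℤ × ℤ)), ω ⊆ E → ∃ m, (next (↑ω ∪ ξ))^[m] a = b

/-- The vertices of the rectangle `[0, m] × [0, n]`. -/
def inRect (m n : ℕ) (v : ℤ × ℤ) : Prop := 0 ≤ v.1 ∧ v.1 ≤ m ∧ 0 ≤ v.2 ∧ v.2 ≤ n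

/-- The edges in the left and in the lower side of the rectangle (these are wired). -/
def sides (m n : ℕ) : Set (Sym2 (ℤ × ℤ)) :=
  {e | ∃ v k, e = s(v, v + dir k) ∧ inRect m n v ∧ inRect m n (v + dir k) ∧
    ((v.1 = 0 ∧ (v + dir k).1 = 0) ∨ (v.2 = 0 ∧ (v + dir k).2 = 0))}

/-- The other edges of the rectangle. -/
def inner (m n : ℕ) : Set (Sym2 (ℤ × ℤ)) :=
  {e | (∃ v k, e = s(v, v + dir k) ∧ inRect m n v ∧ inRect m n (v + dir k)) ∧ e ∉ sides m n}

/-- The number of the clusters of the configuration `S` which contain an end of an edge of `E`. -/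
noncomputable def clusters (E : Finset (Sym2 (ℤ × ℤ))) (S : Set (Sym2 (ℤ × ℤ))) : ℕ :=
  {C : (SimpleGraph.fromEdgeSet S).ConnectedComponent | ∃ e ∈ E, ∃ v ∈ e, v ∈ C.supp}.ncard

/-- The weight `x ^ (number of open edges) * q ^ (number of clusters)`. -/
noncomputable def weight (q x : ℝ) (E : Finset (Sym2 (ℤ × ℤ))) (ξ : Set (Sym2 (ℤ × ℤ)))
    (ω : Finset (Sym2 (ℤ × ℤ))) : ℝ :=
  x ^ ω.card * q ^ clusters E (↑ω ∪ ξ)

/-- The mean of `g (γ_δ)` in the random-cluster model. -/
noncomputable def mean (E : Finset (Sym2 (ℤ × ℤ))) (ξ : Set (Sym2 (ℤ × ℤ))) (a b : Corner)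
    (δ q x : ℝ) (g : C(unitInterval, ℂ) → ℝ) : ℝ :=
  (∑ ω ∈ E.powerset, weight q x E ξ ω * g (interface δ (↑ω ∪ ξ) a b)) /
    ∑ ω ∈ E.powerset, weight q x E ξ ω

/-- The curve `γ` with the time changed by the increasing bijection `τ` of `[0, 1]`. -/
noncomputable def reparam (τ : unitInterval ≃o unitInterval) (γ : C(unitInterval, ℂ)) :
    C(unitInterval, ℂ) where
  toFun t := γ (τ t)
  continuous_toFun := γ.continuous.comp τ.continuous

/-- Convergence in law in the space of curves up to reparametrisation: the laws of the interfaces in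
the domains `E j`, with boundary conditions `ξ j`, marked corners `a j`, `b j` and meshes `δ j`,
converge to `ν`.  The bounded continuous functions on this space are those on `C([0,1], ℂ)` which are
invariant under increasing reparametrisations. -/
def LawsConverge [MeasurableSpace C(unitInterval, ℂ)] (E : ℕ → Finset (Sym2 (ℤ × ℤ)))
    (ξ : ℕ → Set (Sym2 (ℤ × ℤ))) (a b : ℕ → Corner) (δ : ℕ → ℝ) (q x : ℝ)
    (ν : Measure C(unitInterval, ℂ)) : Prop :=
  ∀ f : BoundedContinuousFunction C(unitInterval, ℂ) ℝ, (∀ τ γ, f (reparam τ γ) = f γ) →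
    Tendsto (fun j => mean (E j) (ξ j) (a j) (b j) (δ j) q x f) atTop (𝓝 (∫ γ, f γ ∂ν))

/-- The curve `X` is a deformed interface: `X t = h (γ (τ t))`, where `γ` is the interface from a corner
`a` to a corner `b ≠ a` of any configuration, at any mesh, `h` is a homeomorphism of the plane and `τ`
is a homeomorphism of `[0, 1]`. -/
def IsDeformedInterface (X : C(unitInterval, ℂ)) : Prop :=
  ∃ (S : Set (Sym2 (ℤ × ℤ))) (a b : Corner) (δ : ℝ) (h : ℂ ≃ₜ ℂ)
    (τ : unitInterval ≃ₜ unitInterval),
    a ≠ b ∧ (∃ m, (next S)^[m] a = b) ∧ 0 < δ ∧ ∀ t, X t = h (interface δ S a b (τ t))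

theorem interface_injective (S : Set (Sym2 (ℤ × ℤ))) (a b : Corner) (hab : a ≠ b)
    (hit : ∃ m, (next S)^[m] a = b) {δ : ℝ} (hδ : 0 < δ) :
    Function.Injective (interface δ S a b) :=
  Pool.Agent.H994.ON.interface_injective S a b hab hit hδ.ne'

theorem rectangle (m n : ℕ) (E : Finset (Sym2 (ℤ × ℤ))) (hmn : m ≠ 0 ∨ n ≠ 0)
    (hE : (E : Set (Sym2 (ℤ × ℤ))) = inner m n) :
    IsDomain E (sides m n) ((m, 0), 0) ((0, n), 0) := by
  refine ⟨fun e he => ?_, fun h => ?_, fun ω hω => ?_⟩
  · have : e ∈ inner m n := by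
      rw [← hE]
      exact he
    obtain ⟨⟨v, k, h, -⟩, -⟩ := this
    exact ⟨v, k, h⟩
  · simp only [Prod.mk.injEq, Nat.cast_eq_zero, and_true] at h
    omega
  · refine Pool.Agent.H994.ON.rect (m := m) (n := n) ?_ Set.subset_union_right
    apply Set.union_subset_union_left
    refine subset_trans ?_ hE.subset
    exact_mod_cast hω

theorem carried [MeasurableSpace C(unitInterval, ℂ)] [BorelSpace C(unitInterval, ℂ)]
    (E : ℕ → Finset (Sym2 (ℤ × ℤ))) (ξ : ℕ → Set (Sym2 (ℤ × ℤ))) (a b : ℕ → Corner)
    (δ : ℕ → ℝ) (q x : ℝ) (ν : Measure C(unitInterval, ℂ)) [IsProbabilityMeasure ν]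
    (hE : ∀ j, IsDomain (E j) (ξ j) (a j) (b j)) (hδ : ∀ j, 0 < δ j)
    (hν : LawsConverge E ξ a b δ q x ν) : ν LimitsOfSimpleCurvesᶜ = 0 := by
  apply Pool.Agent.H994.ON.carried
  intro f hf h0
  have h1 := hν f hf
  have e1 : (fun j => mean (E j) (ξ j) (a j) (b j) (δ j) q x f) = fun _ => 0 := by
    funext j
    unfold mean
    rw [Finset.sum_eq_zero, zero_div]
    intro ω hω
    rw [h0 _ (interface_injective _ _ _ (hE j).2.1
      ((hE j).2.2 ω (Finset.mem_powerset.1 hω)) (hδ j)), mul_zero]
  rw [e1] at h1
  exact tendsto_nhds_unique h1 tendsto_const_nhds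

theorem deformed_mem {X : C(unitInterval, ℂ)} (h : IsDeformedInterface X) :
    X ∈ LimitsOfSimpleCurves := by
  obtain ⟨S, a, b, δ, h, τ, hab, hit, hδ, hx⟩ := h
  apply subset_closure
  intro x y hxy
  rw [hx, hx] at hxy
  exact τ.injective (interface_injective S a b hab hit hδ (h.injective hxy))

/-- **Theorem.** (0) The rectangles `[0, m] × [0, n]` with wired left and lower side and free right and
upper side are domains, the interface leads from the lower right to the upper left corner.
Let `ν` be the limit in law, in the space of curves up to reparametrisation, of the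
interface of the random-cluster model with `q > 0`, `x > 0`, in any finite domains `E j` of the square
lattice with boundary conditions `ξ j`, marked corners `a j ≠ b j` and meshes `δ j`.
(1) `ν` is carried by the uniform limits of simple curves.
(2) For the planar fractional Brownian motion with any Hurst index `0 < H < 1`, and for the planar
Brownian motion on `[0, ∞)`: if a random curve `Γ` almost surely contains a nonconstant deformation
of a piece of the path, then `ν` is singular to the law of `Γ`, and to every measure which is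
absolutely continuous with respect to this law; if this happens with positive probability, then `ν`
is not the law of `Γ`.
(3) Let `G` be a planar fractional Brownian motion with Hurst index `0 < H < 1` and let `Γ` be a random
curve on the same probability space, the law of which is `ν`, or absolutely continuous with respect to
`ν`.  Then almost surely there is no time `0 ≤ t₀ < 1` at which `Γ` has the tangent `A G`, `A` an
invertible linear map, along a given sequence of scales.
(4) For every Hurst index `0 < H < 1` and `η > 0` there is `ε > 0` such that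
`P (‖X - G‖ ≤ ε) ≤ η` for every planar fractional Brownian motion `G` with index `H` and every
random curve `X` on the same probability space which is almost surely a deformed interface (of any
configuration, at any mesh). -/
theorem result [MeasurableSpace C(unitInterval, ℂ)] [BorelSpace C(unitInterval, ℂ)] :
    (∀ (m n : ℕ) (E : Finset (Sym2 (ℤ × ℤ))), (m ≠ 0 ∨ n ≠ 0) →
      (E : Set (Sym2 (ℤ × ℤ))) = inner m n → IsDomain E (sides m n) ((m, 0), 0) ((0, n), 0)) ∧
    (∀ (E : ℕ → Finset (Sym2 (ℤ × ℤ))) (ξ : ℕ → Set (Sym2 (ℤ × ℤ))) (a b : ℕ → Corner)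
      (δ : ℕ → ℝ) (q x : ℝ) (ν : Measure C(unitInterval, ℂ)) [IsProbabilityMeasure ν],
      (∀ j, IsDomain (E j) (ξ j) (a j) (b j)) → (∀ j, 0 < δ j) →
      0 < q → 0 < x → LawsConverge E ξ a b δ q x ν →
      ν LimitsOfSimpleCurvesᶜ = 0 ∧
      (∀ (Ω : Type) (_ : MeasurableSpace Ω) (P : Measure Ω) (H : ℝ)
        (G : Ω → C(unitInterval, ℂ)), 0 < H → H < 1 → IsFractionalBrownian H G P →
        SingularToPieces ν P fun ω t => G ω t) ∧
      (∀ (Ω : Type) (_ : MeasurableSpace Ω) (P : Measure Ω) (W : ℝ≥0 → Ω → ℂ),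
        IsPlanarBrownian W P → SingularToPieces ν P fun ω t => W t ω) ∧
      (∀ (Ω : Type) (_ : MeasurableSpace Ω) (P : Measure Ω) (H : ℝ)
        (G Γ : Ω → C(unitInterval, ℂ)), 0 < H → H < 1 → IsFractionalBrownian H G P →
        Measurable Γ → P.map Γ ≪ ν → ∀ ε : ℕ → ℝ, (∀ k, 0 < ε k) → Tendsto ε atTop (𝓝 0) →
        ∀ᵐ ω ∂P, ∀ t₀ : ℝ, 0 ≤ t₀ → t₀ < 1 → ¬ HasTangent H ε t₀ (G ω) (Γ ω))) ∧
    (∀ H : ℝ, 0 < H → H < 1 → ∀ η : ℝ, 0 < η → ∃ ε : ℝ, 0 < ε ∧
      ∀ (Ω : Type) (_ : MeasurableSpace Ω) (P : Measure Ω) (G X : Ω → C(unitInterval, ℂ)),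
        IsFractionalBrownian H G P → (∀ᵐ ω ∂P, IsDeformedInterface (X ω)) →
        P {ω | ‖X ω - G ω‖ ≤ ε} ≤ ENNReal.ofReal η) := by
  have hc : Pool.Agent.H994.FB.S_cnd :=
    Pool.Agent.H994.FB.t_cnd Pool.Agent.H994.FB.t_kint Pool.Agent.H994.FB.t_trig
  have hseg : Pool.Agent.H994.FQ.S_seg := Pool.Agent.H994.FQ.t_seg Pool.Agent.H994.FQ.t_cov
  have hind : Pool.Agent.H994.FQ.S_indep :=
    Pool.Agent.H994.FQ.t_indep Pool.Agent.H994.FQ.t_borel Pool.Agent.H994.FQ.t_cov
      Pool.Agent.H994.FQ.t_small (Pool.Agent.H994.FQ.t_reg hc)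
  have huniq : Pool.Agent.H994.FQ.S_uniq :=
    Pool.Agent.H994.FQ.t_uniq Pool.Agent.H994.FQ.t_borel Pool.Agent.H994.FQ.t_cov
  have hsmul : Pool.Agent.H994.FQ.S_smul :=
    Pool.Agent.H994.FQ.t_smul Pool.Agent.H994.FQ.t_cov
  have hzo : Pool.Agent.H994.FQ.S_zo := Pool.Agent.H994.FQ.t_zo Pool.Agent.H994.FQ.t_borel hind
  have hnull : Pool.Agent.H994.FQ.S_null := Pool.Agent.H994.FQ.t_null huniq hseg hsmul hzo
  have hcl : MeasurableSet LimitsOfSimpleCurves :=
    (show IsClosed LimitsOfSimpleCurves from isClosed_closure).measurableSet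
  refine ⟨rectangle, ?_, ?_⟩
  · intro E ξ a b δ q x ν _ hE hδ _ _ hν
    have h1 := carried E ξ a b δ q x ν hE hδ hν
    refine ⟨h1, ?_, ?_, ?_⟩
    · intro Ω _ P H G h0 hH hG
      exact Pool.Agent.Results.MP_46f0ca_pr.NoGaussianPieces.singular ν P _ h1
        (Pool.Agent.Results.MP_46f0ca_pr.NoGaussianPieces.fractional hc hnull hseg P G H h0 hH hG)
    · intro Ω _ P W hW
      exact Pool.Agent.Results.MP_46f0ca_pr.NoGaussianPieces.singular ν P _ h1
        (Pool.Agent.Results.MP_46f0ca_pr.NoGaussianPieces.brownian P W hW)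
    · intro Ω _ P H G Γ h0 hH hG hΓ he ε hε hε0
      have h3 := he h1
      rw [Measure.map_apply hΓ hcl.compl] at h3
      have h4 := measure_eq_zero_iff_ae_notMem.1 h3
      have h5 := ae_of_ae_map hG.meas.aemeasurable
        (Pool.Agent.H994.FQ.QT.all_tangent hc huniq hseg hsmul hzo inferInstance inferInstance
          (P.map G) h0 hH one_pos (Pool.Agent.Results.MP_46f0ca_pr.NoGaussianPieces.isF hG) hε hε0)
      filter_upwards [h4, h5] with ω h6 h7 t₀ h8 h9
      exact h7 t₀ (Γ ω) h8 h9 (by
        by_contra hc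
        exact h6 hc)
  · intro H h0 hH η hη
    obtain ⟨ε, hε, h⟩ :=
      Pool.Agent.H994.FQ.QF.far hc hnull huniq inferInstance inferInstance h0 hH η hη
    refine ⟨ε, hε, fun Ω _ P G X hG hX => ?_⟩
    refine le_trans ?_ (h (P.map G) (Pool.Agent.Results.MP_46f0ca_pr.NoGaussianPieces.isF hG))
    rw [Measure.map_apply hG.meas (isClosed_le (Metric.continuous_infDist_pt _)
      continuous_const).measurableSet]
    apply measure_mono_ae
    filter_upwards [hX] with ω hω h2
    have h3 : X ω ∈ LimitsOfSimpleCurves := deformed_mem hω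
    refine (Metric.infDist_le_dist_of_mem h3).trans ?_
    rw [dist_comm, dist_eq_norm]
    exact h2

end Pool.Agent.Results.MP_216314_pr.NoBrownianLimits
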