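import Pool.Agent.H950.FK.Rec

/-!
# The law of the random-cluster interface in a rectangle, for all `q ≥ 1`: continuity and reductions

The model is the one of the problem: the square lattice with mesh `δ` in the rectangle
`[0, (m + 1/2) δ] × [0, (n + 1/2) δ]`, whose lower left corner is a primal vertex and whose upper right
corner is a dual vertex; a bond configuration has the weight `x ^ b * q ^ k`; the edges in the left
and in the lower side are open, the edges which cross the right and the upper side are closed. We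
consider any cluster weight `q ≥ 1` and any `x > 0`, in particular the critical value `x = √q`. The
trace of the interface between the lower right and the upper left corner is a random element of the
space of the nonempty compact sets with the Hausdorff metric.

* The laws for two rectangles (with sides at most `K`) and two meshes are within
  `200 K² (|δ m - δ' m'| + |δ n - δ' n'| + |δ - δ'| / δ' + δ') ^ (1 / 3)` of each other in the
  Lévy-Prokhorov distance, uniformly in `q ≥ 1`, `x > 0` and in the aspect ratio: also for very thin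
  rectangles.
* Each sequence of meshes has a subsequence along which the laws converge for all rectangles
  simultaneously, and each family of limits is `1 / 3`-Hölder in the rectangle.
* If the laws converge along one sequence of meshes with ratios of consecutive terms tending to `1`
  (as `1 / n`), for a dense set of aspect ratios, then they converge for all rectangles as `δ → 0`,
  and the limits are covariant under scaling.
* The limit points of each law form a compact connected set; if there are only countably many families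
  of limits, then the laws converge for all rectangles.

The proof uses only the monotonicity of the model in the boundary condition and its invariance under
translations: a smaller rectangle, the given one, and the smaller one translated are ordered, and the
sum over the boxes of the differences of the probabilities that the wired cluster meets the box
telescopes.

Definitions (`Pool.Agent.H950.FK`): `GD` (lattice domains), `GD.W`, `GD.Z`, `GD.We`, `GD.rnd`, `GD.E`,
`GD.cfg`, `GD.ncl`, `GD.wt`, `GD.mu`, `GD.P`, `GD.start`, `GD.stop`, `GD.walk`, `GD.len`, `pt`,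
`GD.curve`, `GD.trace` (`FK.Defs`); `Par`, `NC`, `GD.lawT`, `GD.lawN`, `GD.law` (`FK.Law`); `rct`, `Rc`,
`Rc.lat`, `Rc.scale`, `LimR` (`FK.Rec`); `dil` (`FK.Tr`); `St`, `face`, `nxt`, `orb`
(`H984R3.Per.Defs`), `pl` (`H984R4.NP.Model`).
-/

set_option autoImplicit false

namespace Pool.Agent.Results.MP_216314_pr.RectangleHoelderAllQ

open MeasureTheory Filter Topology Pool.Agent.H950.FK

/-- Lévy-Prokhorov distance. -/
noncomputable def lp (μ ν : ProbabilityMeasure NC) : ℝ :=
  levyProkhorovDist (μ : Measure NC) (ν : Measure NC)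

/-- Sequences of meshes. -/
def Meshes (δ : ℕ → ℝ) : Prop := (∀ i, 0 < δ i) ∧ Tendsto δ atTop (𝓝 0)

/-- The lattice rectangles `m i × n i` with meshes `δ i` approximate `R`. -/
structure Approx (R : Rc) (δ : ℕ → ℝ) (m n : ℕ → ℕ) : Prop where
  A : Tendsto (fun i => δ i * m i) atTop (𝓝 R.A)
  B : Tendsto (fun i => δ i * n i) atTop (𝓝 R.B)

/-- The laws converge to `ν` along `δ`, for all rectangles and all their approximations. -/
def IsLimit (π : Par) (δ : ℕ → ℝ) (ν : Rc → ProbabilityMeasure NC) : Prop :=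
  Meshes δ ∧ ∀ (R : Rc) (m n : ℕ → ℕ), Approx R δ m n →
    Tendsto (fun i => (rct (m i) (n i)).law π (δ i)) atTop (𝓝 (ν R))

/-- The laws converge to `μ` as `δ → 0`, for all approximations of `R`. -/
def Converges (π : Par) (R : Rc) (μ : ProbabilityMeasure NC) : Prop :=
  ∀ (δ : ℕ → ℝ) (m n : ℕ → ℕ), Meshes δ → Approx R δ m n →
    Tendsto (fun i => (rct (m i) (n i)).law π (δ i)) atTop (𝓝 μ)

theorem approx_lat (R : Rc) {δ : ℕ → ℝ} (hδ : Meshes δ) :
    Approx R δ (fun i => ⌊R.A / δ i⌋₊) (fun i => ⌊R.B / δ i⌋₊) := by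
  have key : ∀ x : ℝ, 0 < x → Tendsto (fun i => δ i * ⌊x / δ i⌋₊) atTop (𝓝 x) := by
    intro x hx
    have h1 : Tendsto (fun i => x - δ i) atTop (𝓝 (x - 0)) := tendsto_const_nhds.sub hδ.2
    rw [sub_zero] at h1
    exact tendsto_of_tendsto_of_tendsto_of_le_of_le h1 tendsto_const_nhds
      (fun i => (floor_bd hx (hδ.1 i)).2) (fun i => (floor_bd hx (hδ.1 i)).1)
  exact ⟨key _ R.hA, key _ R.hB⟩

theorem approx_dist (π : Par) {R : Rc} {δ : ℕ → ℝ} (hδ : Meshes δ) {m n : ℕ → ℕ}
    (hG : Approx R δ m n) :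
    Tendsto (fun i => dist (fl (rct (m i) (n i)) π (δ i)) (fR π R (δ i))) atTop (𝓝 0) := by
  obtain ⟨K, hK⟩ : ∃ K, K = max R.A R.B + 1 := ⟨_, rfl⟩
  have hA := R.hA
  have hB := R.hB
  have kA : R.A < K := by rw [hK]; linarith [le_max_left R.A R.B]
  have kB : R.B < K := by rw [hK]; linarith [le_max_right R.A R.B]
  have hK1 : 1 ≤ K := by rw [hK]; linarith [le_max_left R.A R.B]
  have hL := approx_lat R hδ
  have t1 := (hG.A.sub hL.A).abs
  have t2 := (hG.B.sub hL.B).abs
  rw [sub_self, abs_zero] at t1 t2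
  have h1 : Tendsto (fun i => 200 * K ^ 2 * (|δ i * m i - δ i * ⌊R.A / δ i⌋₊| +
      |δ i * n i - δ i * ⌊R.B / δ i⌋₊| + |δ i - δ i| / δ i + δ i) ^ (1/3 : ℝ)) atTop
      (𝓝 (200 * K ^ 2 * (0 + 0 + 0 + 0) ^ (1/3 : ℝ))) := by
    apply Tendsto.const_mul
    apply Tendsto.rpow_const _ (Or.inr (by norm_num))
    refine ((t1.add t2).add ?_).add hδ.2
    simp only [sub_self, abs_zero, zero_div]
    exact tendsto_const_nhds
  rw [add_zero, add_zero, add_zero, Real.zero_rpow (by norm_num), mul_zero] at h1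
  refine squeeze_zero' (Eventually.of_forall fun i => dist_nonneg) ?_ h1
  filter_upwards [hG.A.eventually_lt_const kA, hG.B.eventually_lt_const kB] with i a b
  exact rct_lp2 (hδ.1 i) (hδ.1 i) hK1 a.le b.le ((floor_bd R.hA (hδ.1 i)).1.trans kA.le)
    ((floor_bd R.hB (hδ.1 i)).1.trans kB.le)

theorem approx_tendsto (π : Par) {R : Rc} {δ : ℕ → ℝ} (hδ : Meshes δ) {m n : ℕ → ℕ}
    (hG : Approx R δ m n) {y : Yn} (hy : Tendsto (fun i => fR π R (δ i)) atTop (𝓝 y)) :
    Tendsto (fun i => (rct (m i) (n i)).law π (δ i)) atTop (𝓝 y.toMeasure) := by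
  have h1 : Tendsto (fun i => fl (rct (m i) (n i)) π (δ i)) atTop (𝓝 y) := by
    rw [tendsto_iff_dist_tendsto_zero] at hy ⊢
    have h2 := (approx_dist π hδ hG).add hy
    rw [add_zero] at h2
    exact squeeze_zero (fun i => dist_nonneg) (fun i => dist_triangle _ _ _) h2
  exact tendsto_iff.1 h1

theorem family (π : Par) {δ : ℕ → ℝ} (hδ : Meshes δ) : ∃ φ : ℕ → ℕ, StrictMono φ ∧
    ∃ ν : Rc → ProbabilityMeasure NC, IsLimit π (δ ∘ φ) ν := by
  obtain ⟨φ, hφ, h⟩ := (famR π).fam hδ.1 hδ.2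
  choose y hy using h
  have hm : Meshes (δ ∘ φ) := ⟨fun i => hδ.1 _, hδ.2.comp hφ.tendsto_atTop⟩
  exact ⟨φ, hφ, fun R => (y R).toMeasure, hm, fun R m n hG => approx_tendsto π hm hG (hy R)⟩

theorem limR_family {π : Par} {R : Rc} {μ : ProbabilityMeasure NC} (h : μ ∈ LimR π R) :
    ∃ (δ : ℕ → ℝ) (ν : Rc → ProbabilityMeasure NC), IsLimit π δ ν ∧ ν R = μ := by
  rw [limR_eq] at h
  obtain ⟨y, hy, rfl⟩ := h
  have h1 : ∀ i : ℕ, ∃ δ : ℝ, 0 < δ ∧ δ < 1 / ((i:ℝ) + 1) ∧
      dist (fR π R δ) y < 1 / ((i:ℝ) + 1) :=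
    fun i => Pool.Agent.H950.EX.clu_iff.1 hy _ (by positivity) _ (by positivity)
  choose δ h2 h3 h4 using h1
  have h5 : Tendsto δ atTop (𝓝 0) := squeeze_zero (fun i => (h2 i).le) (fun i => (h3 i).le)
    tendsto_one_div_add_atTop_nhds_zero_nat
  obtain ⟨φ, hφ, ν, hν⟩ := family π ⟨h2, h5⟩
  refine ⟨δ ∘ φ, ν, hν, ?_⟩
  have h6 : Tendsto (fun i => fR π R (δ (φ i))) atTop (𝓝 y) := by
    rw [tendsto_iff_dist_tendsto_zero]
    exact squeeze_zero (fun i => dist_nonneg) (fun i => (h4 (φ i)).le)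
      (tendsto_one_div_add_atTop_nhds_zero_nat.comp hφ.tendsto_atTop)
  exact tendsto_nhds_unique (hν.2 R _ _ (approx_lat R hν.1))
    (approx_tendsto π hν.1 (approx_lat R hν.1) h6)

theorem converges_of {π : Par} {R : Rc} {y : Yn} (h : Tendsto (fR π R) (𝓝[>] 0) (𝓝 y)) :
    Converges π R y.toMeasure := by
  intro δ m n hδ hG
  apply approx_tendsto π hδ hG
  apply h.comp
  rw [tendsto_nhdsWithin_iff]
  exact ⟨hδ.2, Eventually.of_forall hδ.1⟩

theorem of_countable {π : Par}
    (h : {ν : Rc → ProbabilityMeasure NC | ∃ δ, IsLimit π δ ν}.Countable) :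
    ∃ ν : Rc → ProbabilityMeasure NC, ∀ R, Converges π R (ν R) := by
  have h1 : ∀ R, ∃ μ, Converges π R μ := by
    intro R
    obtain ⟨μ, hμ⟩ := limR_dich π R ((h.image (fun ν => ν R)).mono (by
      intro μ hμ
      obtain ⟨δ, ν, h2, h3⟩ := limR_family hμ
      exact ⟨ν, ⟨δ, h2⟩, h3⟩))
    exact ⟨μ, converges_of (y := LevyProkhorov.ofMeasure μ) (tendsto_iff.2 hμ)⟩
  choose ν hν using h1
  exact ⟨ν, hν⟩

theorem reduction {π : Par} {δ : ℕ → ℝ} (hδ : Meshes δ)
    (hr : Tendsto (fun i => δ (i + 1) / δ i) atTop (𝓝 1)) {T : Set ℝ}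
    (hT : ∀ α : ℝ, 0 < α → ∀ ε > 0, ∃ β ∈ T, |α - β| < ε)
    (hc : ∀ R : Rc, R.A ∈ T → R.B = 1 →
      ∃ μ, Tendsto (fun i => (R.lat (δ i)).law π (δ i)) atTop (𝓝 μ)) :
    ∃ ν : Rc → ProbabilityMeasure NC, (∀ R, Converges π R (ν R)) ∧
      ∀ (c : ℝ) (hc : 0 < c) (R : Rc),
        ν (R.scale c hc) = (ν R).map (dil_cont c).measurable.aemeasurable := by
  have h1 : ∀ R : Rc, R.B = 1 → ∃ y : Yn, Tendsto (fR π R) (𝓝[>] 0) (𝓝 y) := by
    intro R hR
    refine (famR π).full hδ.1 hδ.2 hr R (fun ε hε => ?_)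
    obtain ⟨β, hβ, h2⟩ := hT R.A R.hA (min ε R.A) (lt_min hε R.hA)
    have h3 : 0 < β := by
      have := (abs_lt.1 (h2.trans_le (min_le_right _ _))).2
      linarith
    obtain ⟨μ, hμ⟩ := hc ⟨β, 1, h3, one_pos⟩ hβ rfl
    refine ⟨⟨β, 1, h3, one_pos⟩, ⟨(h2.trans_le (min_le_left _ _)).le, ?_⟩, _, tendsto_iff.2 hμ⟩
    show |R.B - 1| ≤ ε
    rw [hR, sub_self, abs_zero]
    exact hε.le
  have h2 : ∀ R : Rc, ∃ y : Yn, Tendsto (fR π R) (𝓝[>] 0) (𝓝 y) := by
    intro R
    have hB := R.hB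
    obtain ⟨y, hy⟩ := h1 (R.scale (1 / R.B) (by positivity)) (by
      show 1 / R.B * R.B = 1
      field_simp)
    have h3 := rlim_scale (c := R.B) hB (tendsto_iff.1 hy)
    have e : (R.scale (1 / R.B) (by positivity)).scale R.B hB = R := by
      obtain ⟨A, B, a, b⟩ := R
      unfold Rc.scale
      simp only [Rc.mk.injEq]
      have hB' : B ≠ 0 := (show 0 < B from b).ne'
      constructor <;> field_simp
    rw [e] at h3
    exact ⟨_, tendsto_iff.2 h3⟩
  choose y hy using h2
  refine ⟨fun R => (y R).toMeasure, fun R => converges_of (hy R), fun c hc R => ?_⟩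
  have h3 := rlim_scale hc (tendsto_iff.1 (hy R))
  exact tendsto_nhds_unique (tendsto_iff.1 (hy (R.scale c hc))) h3

/-- **The law of the random-cluster interface is `1 / 3`-Hölder continuous in the rectangle and in the
logarithm of the mesh, uniformly in the mesh, for all `q ≥ 1` and all `x > 0`.** -/
theorem result :
    -- two rectangles and two meshes
    (∀ (π : Par) (m n m' n' : ℕ) (δ δ' K : ℝ), 0 < δ → 0 < δ' → 1 ≤ K → δ * m ≤ K → δ * n ≤ K →
      δ' * m' ≤ K → δ' * n' ≤ K → lp ((rct m n).law π δ) ((rct m' n').law π δ') ≤ 200 * K ^ 2 *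
        (|δ * m - δ' * m'| + |δ * n - δ' * n'| + |δ - δ'| / δ' + δ') ^ (1/3 : ℝ)) ∧
    ∀ π : Par,
    -- simultaneous subsequential limits, for all rectangles and all approximations
    (∀ δ : ℕ → ℝ, Meshes δ → ∃ φ : ℕ → ℕ, StrictMono φ ∧
      ∃ ν : Rc → ProbabilityMeasure NC, IsLimit π (δ ∘ φ) ν) ∧
    -- they are Hölder continuous in the rectangle
    (∀ (δ : ℕ → ℝ) (ν : Rc → ProbabilityMeasure NC), IsLimit π δ ν →
      ∀ (R R' : Rc) (K : ℝ), 1 ≤ K → R.A ≤ K → R.B ≤ K → R'.A ≤ K → R'.B ≤ K →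
        lp (ν R) (ν R') ≤ 200 * K ^ 2 * (|R.A - R'.A| + |R.B - R'.B|) ^ (1/3 : ℝ)) ∧
    -- convergence along slowly varying meshes, for a dense set of aspect ratios
    (∀ δ : ℕ → ℝ, Meshes δ → Tendsto (fun i => δ (i + 1) / δ i) atTop (𝓝 1) → ∀ T : Set ℝ,
      (∀ α : ℝ, 0 < α → ∀ ε > 0, ∃ β ∈ T, |α - β| < ε) →
      (∀ R : Rc, R.A ∈ T → R.B = 1 →
        ∃ μ, Tendsto (fun i => (R.lat (δ i)).law π (δ i)) atTop (𝓝 μ)) →
      ∃ ν : Rc → ProbabilityMeasure NC, (∀ R, Converges π R (ν R)) ∧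
        ∀ (c : ℝ) (hc : 0 < c) (R : Rc),
          ν (R.scale c hc) = (ν R).map (dil_cont c).measurable.aemeasurable) ∧
    -- limit points
    (∀ R : Rc, IsCompact (LimR π R) ∧ IsConnected (LimR π R)) ∧
    ({ν : Rc → ProbabilityMeasure NC | ∃ δ, IsLimit π δ ν}.Countable →
      ∃ ν : Rc → ProbabilityMeasure NC, ∀ R, Converges π R (ν R)) := by
  refine ⟨?_, fun π => ⟨fun δ hδ => family π hδ, ?_, fun δ hδ hr T hT hc =>
    reduction hδ hr hT hc, fun R => ⟨limR_compact π R, limR_conn π R⟩, of_countable⟩⟩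
  · intro π m n m' n' δ δ' K hδ hδ' hK h1 h2 h1' h2'
    exact rct_lp2 hδ hδ' hK h1 h2 h1' h2'
  · intro δ ν hν R R' K hK hA hB hA' hB'
    have h1 := tendsto_iff.2 (hν.2 R _ _ (approx_lat R hν.1))
    have h2 := tendsto_iff.2 (hν.2 R' _ _ (approx_lat R' hν.1))
    refine holder_lim' (l := atTop) (k := 5) (by norm_num) (Eventually.of_forall hν.1.1) hν.1.2
      (F := fR π R) (G := fR π R') h1 h2 (fun δ hδ => ?_)
    refine (fR_lp π hδ hδ hK hA hB hA' hB').trans (le_of_eq ?_)
    rw [sub_self, abs_zero, zero_div]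
    congr 2
    ring

end Pool.Agent.Results.MP_216314_pr.RectangleHoelderAllQ
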